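import Pool.Agent.helper62.EN.SpecP
import Pool.Agent.helper62.RS.All

set_option autoImplicit false

open scoped MatrixGroups ContDiff Topology UpperHalfPlane ComplexConjugate
open UpperHalfPlane MeasureTheory Filter Set

namespace Pool.Agent.EN

open Pool.Agent.RS

theorem KIS_proof (h1 : WTP_stmt) (h2 : KIN_stmt) (h3 : NUB_stmt) (h4 : SMP_stmt) (h5 : XFL_stmt) (h6 : XTX_stmt) :
    KIS_stmt := by
  intro Γ F c r κ k₀ δ N s φ hGD hδ hδ' hE hN Ψ L hΨ hL hb
  obtain ⟨-, -, ms1, ms2, -, hprob, hint⟩ := h1 Γ F c r κ k₀ δ N s φ hGD hδ hδ' hE hN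
  obtain ⟨hflow, -, hmkc, -, -, -, -, -, hfl, -, hcl, -⟩ := h5 Γ
  obtain ⟨cX, tX, sX⟩ := h6 Γ hGD.surf
  have hmspos : 0 < ms F c r κ φ := by
    have h : 0 < 1 - 2 * δ ^ 2 := by nlinarith
    linarith
  have hsm := (h4 (XG Γ) (fl Γ) (rho Γ F c r κ φ) hflow hprob).2.2.1 Ψ L hΨ hb
  have hflc : ∀ t : ℝ, Continuous (fl Γ t) := fun t => hflow.cont.comp (Continuous.prodMk continuous_const continuous_id)
  set B : ℝ := 2 * Real.log (k₀ / κ) + 2 * Real.log (∫ x, Real.exp (Ψ x) ∂(mX Γ F)) - Real.log N with hB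
  have key : ∀ t : ℝ, 2 * (ms F c r κ φ * ∫ x, Ψ (fl Γ t x) ∂(rho Γ F c r κ φ)) ≤ B + 14 * δ * L := by
    intro t
    have hm : Measurable (fun x => Ψ (fl Γ t x)) := hΨ.comp (hflc t).measurable
    have e1 := hint (fun x => Ψ (fl Γ t x)) hm ⟨L, fun x => hb _⟩
    have hmΦ : Measurable (fun g : SL(2, ℝ) => Ψ (fl Γ t (mkX Γ g))) := hm.comp hmkc.measurable
    have e2 : iR F (fun g => Real.exp (Ψ (fl Γ t (mkX Γ g)))) = ∫ x, Real.exp (Ψ x) ∂(mX Γ F) := by
      have hinv : ∀ (γ : Γ) (g : SL(2, ℝ)), Real.exp (Ψ (mkX Γ ((γ : SL(2, ℝ)) * g))) = Real.exp (Ψ (mkX Γ g)) := by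
        intro γ g
        rw [(hcl g ((γ : SL(2, ℝ)) * g)).2 ⟨γ, rfl⟩]
      have h := ((RS.A_GFD Γ F hGD.surf hGD.nice).2 ℝ).1 (fun g => Real.exp (Ψ (mkX Γ g))) (RS.aM t) hinv
      unfold iR
      simp only [hfl]
      rw [h]
      unfold mX
      exact (integral_map hmkc.measurable.aemeasurable (Real.measurable_exp.comp hΨ).aestronglyMeasurable).symm
    have hJ : |iR F (fun g => Ψ (fl Γ t (mkX Γ g)) * wt F c r κ φ g)| ≤ L := by
      rw [← e1, abs_mul, abs_of_pos hmspos]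
      have h : |∫ x, Ψ (fl Γ t x) ∂(rho Γ F c r κ φ)| ≤ L := by
        have h' := norm_integral_le_of_norm_le_const (μ := rho Γ F c r κ φ) (f := fun x => Ψ (fl Γ t x)) (C := L)
          (Filter.Eventually.of_forall fun x => hb _)
        rw [probReal_univ, mul_one] at h'
        exact h'
      have h0 : 0 ≤ |∫ x, Ψ (fl Γ t x) ∂(rho Γ F c r κ φ)| := abs_nonneg _
      nlinarith
    have h7 := h2 Γ F c r κ k₀ δ N s φ hGD hδ hδ' hE hN (fun g => Ψ (fl Γ t (mkX Γ g))) L hmΦ (fun g => hb _)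
    rw [e2] at h7
    have h8 := h3 δ L _ B hδ hδ' hL hJ h7
    rw [e1]
    exact h8
  have hint2 : IntervalIntegrable (fun t => ∫ x, Ψ (fl Γ t x) ∂(rho Γ F c r κ φ)) volume 0 1 := by
    rw [intervalIntegrable_iff]
    have hmeas : Measurable (fun q : ℝ × XG Γ => Ψ (fl Γ q.1 q.2)) := hΨ.comp hflow.cont.measurable
    have hs : StronglyMeasurable (fun t => ∫ x, Ψ (fl Γ t x) ∂(rho Γ F c r κ φ)) :=
      hmeas.stronglyMeasurable.integral_prod_right'
    refine Measure.integrableOn_of_bounded (M := L) (by simp) hs.aestronglyMeasurable ?_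
    refine Filter.Eventually.of_forall fun t => ?_
    have h' := norm_integral_le_of_norm_le_const (μ := rho Γ F c r κ φ) (f := fun x => Ψ (fl Γ t x)) (C := L)
      (Filter.Eventually.of_forall fun x => hb _)
    rw [probReal_univ, mul_one] at h'
    exact h'
  have h9 : ∫ t in (0 : ℝ)..1, ∫ x, Ψ (fl Γ t x) ∂(rho Γ F c r κ φ) ≤
      ∫ _t in (0 : ℝ)..1, (B + 14 * δ * L) / (2 * ms F c r κ φ) := by
    refine intervalIntegral.integral_mono_on zero_le_one hint2 intervalIntegrable_const fun t _ => ?_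
    rw [le_div_iff₀ (by positivity)]
    have h := key t
    linarith
  rw [intervalIntegral.integral_const, sub_zero, one_smul, le_div_iff₀ (by positivity)] at h9
  rw [hsm]
  linarith

end Pool.Agent.EN
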